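import Pool.Agent.Q211.Tipsy.Exist
import Pool.Agent.Q211.Tipsy.Bad
import Pool.Agent.Q211.Tipsy.Good

set_option autoImplicit false
open scoped Classical ENNReal NNReal
open MeasureTheory Finset Filter Topology

namespace Pool.Agent.Results.MP_037b14_pr.NotMonotone

open Pool.Agent.Q211.Tipsy

theorem conv (f : ℕ × ℕ → ℝ) (hf : ∀ a, 0 ≤ f a) (u w : ℕ × ℕ) :
    ((2 / 5 : ℝ≥0) : ℝ≥0∞) * ENNReal.ofReal (f w) + ((3 / 5 : ℝ≥0) : ℝ≥0∞) *
      ((Gr.degree u : ℝ≥0∞)⁻¹ * ∑ z ∈ Gr.neighborFinset u, ENNReal.ofReal (f z)) =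
    ENNReal.ofReal (2 / 5 * f w + 3 / 5 * avg f u) := by
  have hd : (0 : ℝ) < Gr.degree u := by
    exact_mod_cast Nat.pos_of_ne_zero (degree_ne_zero u)
  have e1 : ((2 / 5 : ℝ≥0) : ℝ≥0∞) = ENNReal.ofReal (2 / 5) := by
    rw [ENNReal.ofReal]
    congr 1
    rw [Real.toNNReal_div (by norm_num)]
    norm_num
  have e2 : ((3 / 5 : ℝ≥0) : ℝ≥0∞) = ENNReal.ofReal (3 / 5) := by
    rw [ENNReal.ofReal]
    congr 1
    rw [Real.toNNReal_div (by norm_num)]
    norm_num
  have e3 : ((Gr.degree u : ℝ≥0∞)⁻¹) = ENNReal.ofReal ((Gr.degree u : ℝ)⁻¹) := by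
    rw [ENNReal.ofReal_inv_of_pos hd, ENNReal.ofReal_natCast]
  have hav : 0 ≤ avg f u := avg_nonneg f u hf
  rw [e1, e2, e3, ← ENNReal.ofReal_sum_of_nonneg fun z _ => hf z,
    ← ENNReal.ofReal_mul (by positivity), ← ENNReal.ofReal_mul (by norm_num),
    ← ENNReal.ofReal_mul (by norm_num), ← ENNReal.ofReal_add]
  · congr 1
    unfold avg
    ring
  · have := hf w
    positivity
  · have : 0 ≤ ∑ z ∈ Gr.neighborFinset u, f z := sum_nonneg fun z _ => hf z
    positivity

theorem conv_one (u : ℕ × ℕ) :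
    ((2 / 5 : ℝ≥0) : ℝ≥0∞) * 1 + ((3 / 5 : ℝ≥0) : ℝ≥0∞) *
      ((Gr.degree u : ℝ≥0∞)⁻¹ * ∑ _z ∈ Gr.neighborFinset u, (1 : ℝ≥0∞)) = 1 := by
  have := conv (fun _ => 1) (fun _ => zero_le_one) u u
  simp only [ENNReal.ofReal_one] at this
  rw [this, avg_const]
  norm_num

/-- the good strategy -/
def cs0 : ℕ → ℕ × ℕ → ℕ × ℕ → ℕ × ℕ := fun _ u v => if v = (0, 0) then sig u else u

theorem cs0_ok : IsCopStrat Gr cs0 := by
  intro s u v
  unfold cs0
  split_ifs
  · exact sig_ok u
  · exact Or.inl rfl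

theorem cs0_win : CopWinning Gr (2 / 5) 0 (3 / 5) 0 (1, 0) (0, 0) cs0 := by
  intro rs _ Ω _ P _ X hX
  have hle : ∀ n, P (alive X n) ≤ ENNReal.ofReal (wk n (1, 0)) := by
    intro n
    have := hX.alive_le (fun k p => if p.2 = (0, 0) then ENNReal.ofReal (wk k p.1) else 1)
      (fun u v huv => by
        simp only
        split_ifs with h
        · subst h
          rw [wk]
          simp [huv]
        · exact le_rfl)
      (fun k n u v huv => by
        simp only
        by_cases h : v = (0, 0)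
        · subst h
          simp only [if_true]
          rw [conv (wk k) (wk_nonneg k)]
          refine ENNReal.ofReal_le_ofReal ?_
          rw [wk]
          simp only [huv, if_false]
          unfold cs0
          simp
        · simp only [h, if_false]
          exact (conv_one u).le)
      n
    simpa using this
  have hlim : Tendsto (fun n => ENNReal.ofReal (wk n (1, 0))) atTop (𝓝 0) := by
    have h1 := ENNReal.tendsto_ofReal (wk_tendsto (1, 0))
    rw [show ((1, 0) : ℕ × ℕ) = (0 + 1, 0) from rfl, wl_tree 0, ENNReal.ofReal_zero] at h1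
    exact h1
  have h0 : P {ω | ¬ ∃ s, (X s ω).1 = (X s ω).2} = 0 := by
    refine le_antisymm ?_ bot_le
    refine ge_of_tendsto' hlim fun n => ?_
    refine le_trans (measure_mono ?_) (hle n)
    intro ω hω i _ hi
    exact hω ⟨i, hi⟩
  exact h0

/-- Q1 is false. -/
theorem result : ¬ Q1 := by
  intro h
  obtain ⟨cs, hcs, hmono, hwin⟩ := h (ℕ × ℕ) Gr gr_connected (2 / 5) 0 (3 / 5) 0
    (by norm_num) (1, 0) (0, 0) ⟨cs0, cs0_ok, cs0_win⟩
  have hrs : IsRobStrat Gr (fun (_ : ℕ) (_ v : ℕ × ℕ) => (v.1, v.2 + 1)) := by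
    intro s u v
    left
    left
    exact ⟨rfl, rfl⟩
  obtain ⟨P, hP, hX⟩ := exists_game (G := Gr) (2 / 5) (3 / 5) (by norm_num) degree_ne_zero cs
    (fun (_ : ℕ) (_ v : ℕ × ℕ) => (v.1, v.2 + 1)) (1, 0) (0, 0)
  have h1 := hwin _ hrs _ P _ hX
  have h2 := hX.prob_le (fun p => if p.2 = (0, 0) then ENNReal.ofReal (hh p.1) else 1)
    (fun v => by
      simp only
      split_ifs with hv
      · subst hv
        rw [hh_zero]
        simp
      · exact le_rfl)
    (fun n u v huv => by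
      simp only
      by_cases hv : v = (0, 0)
      · subst hv
        simp only [if_true]
        rw [conv hh hh_nonneg]
        exact ENNReal.ofReal_le_ofReal (hh_super u (cs n u (0, 0)) (hcs n u (0, 0)) huv
          (hmono n u (0, 0)))
      · simp only [hv, if_false]
        exact (conv_one u).le)
  simp only [if_true] at h2
  rw [hh_start] at h2
  have h3 : P {ω | ∃ s, (ω s).1 = (ω s).2} = 1 := by
    rw [measure_congr (eventuallyEq_univ.mpr h1), measure_univ]
  rw [h3] at h2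
  have : (1 : ℝ≥0∞) ≤ ENNReal.ofReal (4 / 5) := h2
  rw [← ENNReal.ofReal_one, ENNReal.ofReal_le_ofReal_iff (by norm_num)] at this
  norm_num at this

end Pool.Agent.Results.MP_037b14_pr.NotMonotone
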